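import Pool.Agent.Helper65.BQ.St
import Pool.Agent.Helper52.CM.Grid

/-! # Project BQ: module HIL -/

set_option autoImplicit false

open Set Topology TopologicalSpace

namespace Pool.Agent.Helper35.BQ

open Pool.Agent.Helper9.SID Pool.Agent.Helper65.BQ

/-- The point of the Hilbert cube with first coordinates `z`. -/
noncomputable def emb (n : ℕ) (z : Fin n → ℝ) : ℕ → unitInterval := fun j =>
  if h : j < n then projIcc (0 : ℝ) 1 zero_le_one (z ⟨j, h⟩) else 0

theorem emb_cont (n : ℕ) : Continuous (emb n) := by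
  refine continuous_pi fun j => ?_
  unfold emb
  by_cases h : j < n
  · simp only [h, dif_pos]
    exact continuous_projIcc.comp (continuous_apply _)
  · simp only [h, dif_neg, not_false_eq_true]
    exact continuous_const

theorem fin_case (n : ℕ) (U V : ℕ → Set (ℕ → unitInterval)) (hU : ∀ i, IsOpen (U i))
    (hV : ∀ i, IsOpen (V i)) (hd : ∀ i, Disjoint (U i) (V i))
    (hA : ∀ i, {x : ℕ → unitInterval | x i = 0} ⊆ U i)
    (hB : ∀ i, {x : ℕ → unitInterval | x i = 1} ⊆ V i) :
    ∃ x : ℕ → unitInterval, ∀ i < n, x ∉ U i ∪ V i := by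
  classical
  by_contra hcon
  push Not at hcon
  have hcpt : IsCompact (Icc (0 : Fin n → ℝ) 1) := isCompact_Icc
  let c : Fin n × Bool → Set (Fin n → ℝ) := fun p =>
    emb n ⁻¹' (if p.2 then U p.1 else V p.1)
  have hc : ∀ p, IsOpen (c p) := by
    rintro ⟨i, b⟩
    refine IsOpen.preimage (emb_cont n) ?_
    cases b
    · simpa using hV i
    · simpa using hU i
  have hcov : Icc (0 : Fin n → ℝ) 1 ⊆ ⋃ p : Fin n × Bool, c p := by
    intro z _
    obtain ⟨i, hi, h⟩ := hcon (emb n z)
    rcases h with h | h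
    · exact mem_iUnion.2 ⟨(⟨i, hi⟩, true), by simpa [c] using h⟩
    · exact mem_iUnion.2 ⟨(⟨i, hi⟩, false), by simpa [c] using h⟩
  obtain ⟨δ, hδ, hL⟩ := lebesgue_number_lemma_of_metric hcpt hc hcov
  obtain ⟨M, hM⟩ := exists_nat_one_div_lt hδ
  set N : ℕ := M + 1 with hN
  have hNpos : (0 : ℝ) < N := by rw [hN]; positivity
  set q : (Fin n → ℕ) → (Fin n → ℝ) := fun y j => (y j : ℝ) / N with hq
  have hq01 : ∀ y : Fin n → ℕ, (∀ j, y j ≤ N) → q y ∈ Icc (0 : Fin n → ℝ) 1 := by
    intro y hy
    constructor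
    · intro j
      simp only [hq, Pi.zero_apply]
      positivity
    · intro j
      simp only [hq, Pi.one_apply]
      rw [div_le_one hNpos]
      exact_mod_cast hy j
  let f : Fin n → (Fin n → ℕ) → ZMod 2 := fun i y => if emb n (q y) ∈ U i then 0 else 1
  have hf : ∀ i, ∀ y : Fin n → ℕ, (y i = 0 → f i y = 0) ∧ (y i = N → f i y = 1) := by
    intro i y
    constructor
    · intro h
      have h1 : emb n (q y) ∈ U i := by
        apply hA i
        simp only [mem_ofPred_eq, emb, i.2, dif_pos, Fin.eta]
        have : q y i = 0 := by simp only [hq, h]; simp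
        rw [this]
        exact projIcc_left (zero_le_one (α := ℝ))
      simp only [f]
      rw [if_pos h1]
    · intro h
      have h1 : emb n (q y) ∈ V i := by
        apply hB i
        simp only [mem_ofPred_eq, emb, i.2, dif_pos, Fin.eta]
        have : q y i = 1 := by
          simp only [hq, h]
          exact div_self hNpos.ne'
        rw [this]
        exact projIcc_right (zero_le_one (α := ℝ))
      simp only [f]
      rw [if_neg (Set.disjoint_right.1 (hd i) h1)]
  obtain ⟨x, hxN, hx⟩ := Pool.Agent.Helper52.CM.Grid.exists_cube N f hf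
  have hx01 : q x ∈ Icc (0 : Fin n → ℝ) 1 := hq01 x fun j => (hxN j).le
  obtain ⟨⟨i, b⟩, hci⟩ := hL (q x) hx01
  have hcube : ∀ y : Fin n → ℕ, (∀ j, x j ≤ y j ∧ y j ≤ x j + 1) → q y ∈ c (i, b) := by
    intro y hy
    apply hci
    rw [Metric.mem_ball]
    refine lt_of_le_of_lt ?_ hM
    rw [dist_pi_le_iff (by positivity)]
    intro j
    simp only [hq]
    rw [Real.dist_eq, ← sub_div, abs_div, abs_of_pos hNpos, hN]
    push_cast
    apply div_le_div_of_nonneg_right _ (by positivity)
    have e1 : (x j : ℝ) ≤ y j := by exact_mod_cast (hy j).1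
    have e2 : (y j : ℝ) ≤ x j + 1 := by exact_mod_cast (hy j).2
    rw [abs_of_nonneg (by linarith)]
    linarith
  obtain ⟨y, y', hy, hy', hne⟩ := hx i
  apply hne
  cases b
  · have key : ∀ y : Fin n → ℕ, (∀ j, x j ≤ y j ∧ y j ≤ x j + 1) → f i y = 1 := by
      intro y hy
      have h1 : emb n (q y) ∈ V i := by simpa [c] using hcube y hy
      simp only [f]
      rw [if_neg (Set.disjoint_right.1 (hd i) h1)]
    rw [key y hy, key y' hy']
  · have key : ∀ y : Fin n → ℕ, (∀ j, x j ≤ y j ∧ y j ≤ x j + 1) → f i y = 0 := by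
      intro y hy
      have h1 : emb n (q y) ∈ U i := by simpa [c] using hcube y hy
      simp only [f]
      rw [if_pos h1]
    rw [key y hy, key y' hy']

theorem pHIL : StHIL := by
  refine ⟨fun i => {x | x i = 0}, fun i => {x | x i = 1}, fun i => ⟨?_, ?_, ?_⟩, ?_⟩
  · exact isClosed_eq (continuous_apply i) continuous_const
  · exact isClosed_eq (continuous_apply i) continuous_const
  · rw [Set.disjoint_left]
    intro x (h0 : x i = 0) (h1 : x i = 1)
    rw [h0] at h1
    exact zero_ne_one h1
  · intro L hL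
    choose hc U V hU hV hd hA hB hUV using hL
    have h := isCompact_univ.inter_iInter_nonempty (s := (univ : Set (ℕ → unitInterval))) L hc
      (fun u => by
        obtain ⟨x, hx⟩ := fin_case (u.sup id + 1) U V hU hV hd hA hB
        refine ⟨x, mem_univ _, mem_iInter₂.2 fun i hi => ?_⟩
        have h1 : i < u.sup id + 1 := Nat.lt_succ_of_le (Finset.le_sup (f := id) hi)
        have h2 := hx i h1
        rw [← hUV i] at h2
        exact not_not.1 h2)
    rwa [univ_inter] at h

end Pool.Agent.Helper35.BQ
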